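import Pool.Agent.J4.H69.BK.Final

/-!
# `C(B(κ))` is never isomorphic to `C(B(κ)^n)`, `2 ≤ n ≤ ω`, `κ` uncountable
-/

set_option autoImplicit false

namespace Pool.Agent.Results.MP_b4ec01_an.EveryUncountable

open Pool.Agent.Helper358.LOne Pool.Agent.Y320.BP Cardinal

universe u

/-- Throughout `Ball κ` is the compact space `B(κ)` (topology induced from the product `κ → ℝ`),
`≃L[ℝ]` is a linear homeomorphism for the norm topologies, and `Emb X Y` says that the Banach space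
`X` is isomorphic to a subspace of `Y` (some bounded operator `X → Y` is bounded below).

Let `κ` be any uncountable set. Then `C(B(κ))` is not isomorphic to `C(B(κ)^n)` for any integer
`n ≥ 2`, and it is not isomorphic to `C(B(κ)^ω)`. In general, for every set `Λ` and all countable
`I`, `J` with `I` nonempty, `C(B(κ)^I)` is isomorphic to a subspace of `C(B(Λ)^J)` if and only if
`|κ| ≤ |Λ|` and `|I| ≤ |J|`, and the two spaces are isomorphic if and only if `|κ| = |Λ|` and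
`|I| = |J|`. -/
theorem result (κ : Type u) (hκ : Uncountable κ) :
    (∀ n : ℕ, 2 ≤ n → IsEmpty (C(Ball κ, ℝ) ≃L[ℝ] C(Fin n → Ball κ, ℝ))) ∧
    IsEmpty (C(Ball κ, ℝ) ≃L[ℝ] C(ℕ → Ball κ, ℝ)) ∧
    (∀ (Λ : Type u) (I J : Type), Nonempty I → Countable I → Countable J →
      (Emb C(I → Ball κ, ℝ) C(J → Ball Λ, ℝ) ↔ #κ ≤ #Λ ∧ #I ≤ #J) ∧
      (Nonempty (C(I → Ball κ, ℝ) ≃L[ℝ] C(J → Ball Λ, ℝ)) ↔ #κ = #Λ ∧ #I = #J)) := by
  have h2 : ¬ Emb C(Fin 2 → Ball κ, ℝ) C(Ball κ, ℝ) :=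
    fun h => Pool.Agent.J4.H69.BK.fin_not κ hκ (by norm_num : 1 < 2) (h.trans (emb_one κ))
  refine ⟨fun n hn => ⟨fun e => ?_⟩, ⟨fun e => ?_⟩,
    fun Λ I J hI hIc hJc => ⟨Pool.Agent.J4.H69.BK.emb_iff κ Λ I J hκ hI hIc hJc,
      Pool.Agent.J4.H69.BK.equiv_iff κ Λ I J hκ hI hIc hJc⟩⟩
  · exact h2 ((emb_pow le_rfl (Fin.castLEEmb hn)).trans (emb_of_equiv e.symm))
  · exact h2 ((emb_pow le_rfl Fin.valEmbedding).trans (emb_of_equiv e.symm))

end Pool.Agent.Results.MP_b4ec01_an.EveryUncountable
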